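import Pool.Agent.K6.H61.ALG.Hide

/-! The values of an oracle which are fixed by questions to an extension -/

set_option autoImplicit false

namespace Pool.Agent.K6.H61.ALH

open MvPolynomial Finset Pool.Agent.H620R2.Gauge Pool.Agent.TH678.GC Pool.Agent.K6.H61.ALG

section
variable {K : Type} [Field K] {n : ℕ}

/-- every multilinear polynomial which vanishes at the points of `S` vanishes at `b` -/
def Sp (S : Finset (Fin n → K)) (b : Fin n → Bool) : Prop :=
  ∀ a : (Fin n → Bool) → K, (∀ s ∈ S, eval s (ml a) = 0) → a b = 0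

theorem sp_card (S : Finset (Fin n → K)) : ∃ W : Finset (Fin n → Bool), W.card ≤ S.card ∧
    ∀ b, Sp S b → b ∈ W := by
  obtain ⟨W, h1, h2⟩ := exists_spoiled S
  refine ⟨W, h1, fun b hb => ?_⟩
  by_contra hcon
  obtain ⟨a, h3, h4⟩ := h2 b hcon
  exact h4 (hb a h3)

theorem exists_corr' (S : Finset (Fin n → K)) : ∃ R : ((Fin n → Bool) → K) → MvPolynomial (Fin n) K,
    R 0 = 0 ∧ ∀ a : (Fin n → Bool) → K, (∀ j, (R a).degreeOf j ≤ 2) ∧
      (∀ s ∈ S, eval s (R a) = 0) ∧
      ((∀ b, Sp S b → a b = 0) → ∀ b, eval (pt K b) (R a) = a b) := by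
  classical
  have hW2 : ∀ b, ¬ Sp S b → ∃ a : (Fin n → Bool) → K, (∀ s ∈ S, eval s (ml a) = 0) ∧
      a b ≠ 0 := by
    intro b hb
    unfold Sp at hb
    push Not at hb
    exact hb
  choose f hf1 hf2 using hW2
  obtain ⟨g, hgn, hgp⟩ : ∃ g : (Fin n → Bool) → MvPolynomial (Fin n) K, (∀ b, Sp S b → g b = 0) ∧
      ∀ b (h : ¬ Sp S b), g b = C (f b h b)⁻¹ * (ml (f b h) * dl K b) :=
    ⟨fun b => if h : Sp S b then 0 else C (f b h b)⁻¹ * (ml (f b h) * dl K b),
      fun b h => dif_pos h, fun b h => dif_neg h⟩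
  have hg1 : ∀ b j, (g b).degreeOf j ≤ 2 := by
    intro b j
    by_cases h : Sp S b
    · rw [hgn b h, degreeOf_zero]
      omega
    · rw [hgp b h]
      refine (degreeOf_C_mul_le _ _ _).trans ((degreeOf_mul_le _ _ _).trans ?_)
      have h1 := degreeOf_ml (f b h) j
      have h2 := degreeOf_dl (K := K) b j
      omega
  have hg2 : ∀ b, ∀ s ∈ S, eval s (g b) = 0 := by
    intro b s hs
    by_cases h : Sp S b
    · rw [hgn b h, map_zero]
    · rw [hgp b h, map_mul, map_mul, hf1 b h s hs, zero_mul, mul_zero]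
  have hg3 : ∀ b, ¬ Sp S b → ∀ c, eval (pt K c) (g b) = if c = b then 1 else 0 := by
    intro b hb c
    rw [hgp b hb, map_mul, map_mul, eval_C, eval_ml, eval_dl]
    split_ifs with h
    · subst h
      rw [mul_one, inv_mul_cancel₀ (hf2 c hb)]
    · rw [mul_zero, mul_zero]
  refine ⟨fun a => ∑ b, C (a b) * g b, ?_, fun a => ⟨fun j => ?_, fun s hs => ?_,
    fun ha b => ?_⟩⟩
  · simp
  · refine (degreeOf_sum_le j _ _).trans (Finset.sup_le fun b _ => ?_)
    exact (degreeOf_C_mul_le _ _ _).trans (hg1 b j)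
  · rw [map_sum]
    refine Finset.sum_eq_zero fun b _ => ?_
    rw [map_mul, hg2 b s hs, mul_zero]
  · rw [map_sum, Finset.sum_eq_single b]
    · by_cases hb : Sp S b
      · rw [map_mul, eval_C, ha b hb, zero_mul]
      · rw [map_mul, eval_C, hg3 b hb b, if_pos rfl, mul_one]
    · intro c _ hc
      by_cases hcW : Sp S c
      · rw [map_mul, eval_C, ha c hcW, zero_mul]
      · rw [map_mul, hg3 c hcW b, if_neg (fun h => hc h.symm), mul_zero]
    · intro h
      exact absurd (Finset.mem_univ b) h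

end

variable {ι : Type} {F : ι → Type}

open Classical in
theorem points' (dec : List Bool → Quest F) (QQ : Finset (List Bool)) (i : ι) (m : ℕ) :
    ∃ S : Finset (Fin m → F i),
      S.card ≤ (QQ.filter fun q => ((dec q).i, (dec q).m) = (i, m)).card ∧
      ∀ v, v ∈ S ↔ ∃ q ∈ QQ, ∃ T, dec q = ⟨i, m, v, T⟩ := by
  induction QQ using Finset.induction_on with
  | empty => exact ⟨∅, by simp, by simp⟩
  | insert q QQ hq ih =>
    obtain ⟨S, hS1, hS2⟩ := ih
    by_cases h : ∃ v T, dec q = ⟨i, m, v, T⟩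
    · obtain ⟨v, T, h⟩ := h
      refine ⟨insert v S, ?_, ?_⟩
      · rw [Finset.filter_insert, if_pos (by rw [h]), Finset.card_insert_of_notMem
          (fun h1 => hq (Finset.mem_filter.1 h1).1)]
        exact (Finset.card_insert_le _ _).trans (Nat.succ_le_succ hS1)
      · intro v'
        rw [Finset.mem_insert, hS2]
        constructor
        · rintro (h1 | ⟨q', hq', T', h'⟩)
          · exact ⟨q, Finset.mem_insert_self _ _, T, by rw [h1, h]⟩
          · exact ⟨q', Finset.mem_insert_of_mem hq', T', h'⟩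
        · rintro ⟨q', hq', T', h'⟩
          rcases Finset.mem_insert.1 hq' with h1 | h1
          · left
            subst h1
            rw [h] at h'
            injection h' with h2 h3 h4 h5
            exact h4.symm
          · exact Or.inr ⟨q', h1, T', h'⟩
    · refine ⟨S, hS1.trans (Finset.card_le_card
        (Finset.filter_subset_filter _ (Finset.subset_insert _ _))), fun v' => ?_⟩
      rw [hS2]
      constructor
      · rintro ⟨q', hq', T', h'⟩
        exact ⟨q', Finset.mem_insert_of_mem hq', T', h'⟩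
      · rintro ⟨q', hq', T', h'⟩
        rcases Finset.mem_insert.1 hq' with h1 | h1
        · subst h1
          exact absurd ⟨v', T', h'⟩ h
        · exact ⟨q', h1, T', h'⟩

/-- the points of the questions about the polynomial number `(i, m)` -/
noncomputable def pts (dec : List Bool → Quest F) (QQ : Finset (List Bool)) (i : ι) (m : ℕ) :
    Finset (Fin m → F i) := (points' dec QQ i m).choose

theorem mem_pts (dec : List Bool → Quest F) (QQ : Finset (List Bool)) (i : ι) (m : ℕ)
    (v : Fin m → F i) : v ∈ pts dec QQ i m ↔ ∃ q ∈ QQ, ∃ T, dec q = ⟨i, m, v, T⟩ :=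
  (points' dec QQ i m).choose_spec.2 v

variable [∀ i, Field (F i)]

/-- The strings where the value of the oracle is fixed by the questions in `QQ`. -/
def SpoS (dec : List Bool → Quest F) (QQ : Finset (List Bool)) : Set (List Bool) :=
  {u | ∃ (i : ι) (m : ℕ) (b : Fin m → Bool), Sp (pts dec QQ i m) b ∧ u = List.ofFn b}

theorem spoS_mono (dec : List Bool → Quest F) {QQ QQ' : Finset (List Bool)} (h : QQ ⊆ QQ') :
    SpoS dec QQ ⊆ SpoS dec QQ' := by
  rintro u ⟨i, m, b, h1, h2⟩
  refine ⟨i, m, b, fun a ha => h1 a fun s hs => ha s ?_, h2⟩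
  rw [mem_pts] at hs ⊢
  obtain ⟨q, hq, hT⟩ := hs
  exact ⟨q, h hq, hT⟩

open Classical in
theorem spoS_card (dec : List Bool → Quest F) (QQ : Finset (List Bool)) :
    ∃ U : Finset (List Bool), U.card ≤ QQ.card ∧ ∀ u ∈ SpoS dec QQ, u ∈ U := by
  choose W hW1 hW2 using fun (i : ι) (m : ℕ) => sp_card (pts dec QQ i m)
  have hS1 : ∀ i m, (pts dec QQ i m).card ≤
      (QQ.filter fun q => ((dec q).i, (dec q).m) = (i, m)).card := fun i m =>
    (points' dec QQ i m).choose_spec.1
  set J : Finset (ι × ℕ) := QQ.image fun q => ((dec q).i, (dec q).m) with hJ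
  refine ⟨J.biUnion fun p => (W p.1 p.2).image List.ofFn, ?_, ?_⟩
  · refine Finset.card_biUnion_le.trans ?_
    rw [Finset.card_eq_sum_card_image (fun q => ((dec q).i, (dec q).m)) QQ]
    refine Finset.sum_le_sum fun p _ => Finset.card_image_le.trans ?_
    exact (hW1 p.1 p.2).trans (hS1 p.1 p.2)
  · rintro u ⟨i, m, b, h1, rfl⟩
    have hb := hW2 i m b h1
    have hJ' : (i, m) ∈ J := by
      by_contra hcon
      have h4 : (QQ.filter fun q => ((dec q).i, (dec q).m) = (i, m)) = ∅ := by
        rw [Finset.filter_eq_empty_iff]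
        intro q hq h5
        exact hcon (Finset.mem_image.2 ⟨q, hq, h5⟩)
      have h5 := (hW1 i m).trans (hS1 i m)
      rw [h4, Finset.card_empty, Nat.le_zero, Finset.card_eq_zero] at h5
      rw [h5] at hb
      exact absurd hb (Finset.notMem_empty _)
    exact Finset.mem_biUnion.2 ⟨(i, m), hJ', Finset.mem_image.2 ⟨b, hb, rfl⟩⟩

theorem ora_congr2 (dec : List Bool → Quest F) {P P' : Fam F} {q : List Bool}
    (h : eval (dec q).v (P ((dec q).i, (dec q).m)) =
      eval (dec q).v (P' ((dec q).i, (dec q).m))) : ora dec P q = ora dec P' q := by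
  unfold ora
  rw [h]

theorem hide2 (dec : List Bool → Quest F) (QQ : Finset (List Bool)) (A : Oracle) (P : Fam F)
    (hAP : IsExt A P) : ∃ G : Oracle → Fam F,
      (∀ i m B, (∀ u : List Bool, u.length = m → B u = A u) → G B (i, m) = P (i, m)) ∧
      (∀ i m B B', (∀ u : List Bool, u.length = m → B u = B' u) → G B (i, m) = G B' (i, m)) ∧
      (∀ i m B, (∀ u ∈ SpoS dec QQ, u.length = m → B u = A u) →
        (∀ j, (G B (i, m)).degreeOf j ≤ 2) ∧
        ∀ b : Fin m → Bool, eval (pt (F i) b) (G B (i, m)) = bt (F i) (B (List.ofFn b))) ∧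
      ∀ q ∈ QQ, ∀ B, ora dec (G B) q = ora dec P q := by
  choose R hR0 hR using fun (i : ι) (m : ℕ) => exists_corr' (pts dec QQ i m)
  have hle : ∀ b b' : Bool, ∀ i : ι, bt (F i) b + (bt (F i) b' - bt (F i) b) = bt (F i) b' :=
    fun b b' i => by ring
  refine ⟨fun B p => P p + R p.1 p.2 fun b => bt (F p.1) (B (List.ofFn b)) -
    bt (F p.1) (A (List.ofFn b)), ?_, ?_, ?_, ?_⟩
  · intro i m B hB
    have h1 : (fun b : Fin m → Bool => bt (F i) (B (List.ofFn b)) -
        bt (F i) (A (List.ofFn b))) = 0 := by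
      funext b
      rw [hB _ (List.length_ofFn), sub_self]
      rfl
    show P (i, m) + R i m (fun b : Fin m → Bool => bt (F i) (B (List.ofFn b)) -
        bt (F i) (A (List.ofFn b))) = P (i, m)
    rw [h1, hR0, add_zero]
  · intro i m B B' hB
    have h1 : (fun b : Fin m → Bool => bt (F i) (B (List.ofFn b)) -
        bt (F i) (A (List.ofFn b))) = fun b : Fin m → Bool => bt (F i) (B' (List.ofFn b)) -
        bt (F i) (A (List.ofFn b)) := by
      funext b
      rw [hB _ (List.length_ofFn)]
    show P (i, m) + R i m (fun b : Fin m → Bool => bt (F i) (B (List.ofFn b)) -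
        bt (F i) (A (List.ofFn b))) = P (i, m) + R i m (fun b : Fin m → Bool =>
          bt (F i) (B' (List.ofFn b)) - bt (F i) (A (List.ofFn b)))
    rw [h1]
  · intro i m B hB
    obtain ⟨h1, _, h3⟩ := hR i m (fun b : Fin m → Bool => bt (F i) (B (List.ofFn b)) -
        bt (F i) (A (List.ofFn b)))
    refine ⟨fun j => (degreeOf_add_le j _ _).trans (max_le ((hAP i m).1 j) (h1 j)), fun b => ?_⟩
    show eval (pt (F i) b) (P (i, m) + R i m _) = _
    rw [map_add, (hAP i m).2 b, h3 (fun c hc => ?_) b]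
    · exact hle _ _ i
    · rw [hB _ ⟨i, m, c, hc, rfl⟩ List.length_ofFn, sub_self]
  · intro q hq B
    have h1 : (dec q).v ∈ pts dec QQ (dec q).i (dec q).m := by
      rw [mem_pts]
      exact ⟨q, hq, (dec q).T, rfl⟩
    have h2 := (hR (dec q).i (dec q).m (fun b => bt (F (dec q).i) (B (List.ofFn b)) -
        bt (F (dec q).i) (A (List.ofFn b)))).2.1 _ h1
    have h3 : eval (dec q).v (P ((dec q).i, (dec q).m) + R (dec q).i (dec q).m (fun b =>
        bt (F (dec q).i) (B (List.ofFn b)) - bt (F (dec q).i) (A (List.ofFn b)))) =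
        eval (dec q).v (P ((dec q).i, (dec q).m)) := by
      rw [map_add, h2, add_zero]
    exact ora_congr2 dec h3

end Pool.Agent.K6.H61.ALH
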