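import Pool.Agent.K6.H61.ALH.Defs
import Pool.Agent.K6.H61.ALH.Hide2
import Pool.Agent.K6.H61.ALG.Coll
import Pool.Agent.K6.H3.MW.One

/-! Problems relative to an oracle and an extension of it -/

set_option autoImplicit false

namespace Pool.Agent.K6.H61.ALH

open MvPolynomial Pool.Agent.NPC Pool.Agent.H620R2.Gauge Pool.Agent.TH678.SQ
  Pool.Agent.H622R2 Pool.Agent.K6.H3.MW Pool.Agent.K6.H61.ALG

theorem comb_ext (A B : Oracle) (v : List Bool) :
    comb A B (true :: true :: false :: v) = B v := rfl

theorem comb_false (A B : Oracle) (v : List Bool) : comb A B (false :: v) = A (false :: v) := rfl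

theorem comb_other (A B : Oracle) {q : List Bool} (h : ∀ v, q ≠ true :: true :: false :: v) :
    comb A B q = A q := by
  unfold comb
  split
  · exact absurd rfl (h _)
  · rfl

/-- the codes are not questions about the extension -/
theorem cs_ne (h : ℕ → ℕ → ℕ) (I : Ins) (i : ℕ) (v : List Bool) :
    cs h I i ≠ true :: true :: false :: v := by
  intro hcon
  unfold cs at hcon
  have h1 := (List.cons.inj hcon).2
  unfold pairBits at h1
  rcases I with ⟨e, x, k⟩
  rcases e with _ | e
  · simp at h1
  · simp [List.replicate_succ] at h1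

theorem comb_cs (A B : Oracle) (h : ℕ → ℕ → ℕ) (I : Ins) (i : ℕ) :
    comb A B (cs h I i) = A (cs h I i) := comb_other A B (cs_ne h I i)

variable {ι : Type} {F : ι → Type} [∀ i, Field (F i)]

/-- the extension is determined level by level -/
def Local (G : Oracle → Fam F) : Prop := ∀ (i : ι) (m : ℕ) (A B : Oracle),
  (∀ u : List Bool, u.length = m → A u = B u) → G A (i, m) = G B (i, m)

theorem comb_congr {dec : List Bool → Quest F} (hdec : ∀ q, (dec q).m ≤ q.length) {A B : Oracle}
    {P P' : Fam F} {n : ℕ} (hA : ∀ u : List Bool, u.length ≤ n → A u = B u)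
    (hP : ∀ i m, m ≤ n → P (i, m) = P' (i, m)) (q : List Bool) (hq : q.length ≤ n) :
    comb A (ora dec P) q = comb B (ora dec P') q := by
  by_cases h : ∃ v, q = true :: true :: false :: v
  · obtain ⟨v, rfl⟩ := h
    rw [comb_ext, comb_ext]
    refine ora_congr dec (hP _ _ ?_)
    have := hdec v
    rw [List.length_cons, List.length_cons, List.length_cons] at hq
    omega
  · push Not at h
    rw [comb_other A _ h, comb_other B _ h, hA q hq]

/-- the problems `Q`, relative to the oracle together with the extension `G` -/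
def cQ (Q : ℕ → Oracle → Set (List Bool × ℕ)) (dec : List Bool → Quest F) (G : Oracle → Fam F) :
    ℕ → Oracle → Set (List Bool × ℕ) := fun e A => Q e (comb A (ora dec (G A)))

theorem cQ_short {Q : ℕ → Oracle → Set (List Bool × ℕ)} {h : ℕ → ℕ → ℕ}
    {dec : List Bool → Quest F} (hdec : ∀ q, (dec q).m ≤ q.length)
    (hQ : ∀ e, Short (h e) (Q e)) {G : Oracle → Fam F} (hG : Local G) :
    ∀ e, Short (h e) (cQ Q dec G e) := by
  intro e A B x k hAB
  refine hQ e _ _ x k fun q hq => ?_
  exact comb_congr hdec hAB (fun i m hm => hG i m A B fun u hu => hAB u (by omega)) q hq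

theorem local_const (P : Fam F) : Local (fun _ : Oracle => P) := fun _ _ _ _ _ => rfl

section
variable {Q : ℕ → Oracle → Set (List Bool × ℕ)} {h : ℕ → ℕ → ℕ} {dec : List Bool → Quest F}

theorem good_const {G : Oracle → Fam F} {L : ℕ} {A : Oracle} (hg : Good h (cQ Q dec G) L A) :
    Good h (cQ Q dec fun _ => G A) L A := ⟨hg.both, hg.right⟩

theorem good_of_const {G : Oracle → Fam F} {L : ℕ} {A : Oracle}
    (hg : Good h (cQ Q dec fun _ => G A) L A) : Good h (cQ Q dec G) L A := ⟨hg.both, hg.right⟩

theorem good_pair (hdec : ∀ q, (dec q).m ≤ q.length) (hQ : ∀ e, Short (h e) (Q e)) {A B : Oracle}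
    {P P' : Fam F} {L : ℕ} (hA : ∀ u : List Bool, u.length ≤ L → A u = B u)
    (hP : ∀ i m, m ≤ L → P (i, m) = P' (i, m)) (hg : Good h (cQ Q dec fun _ => P) L A) :
    Good h (cQ Q dec fun _ => P') L B := by
  have h1 := good_congr (cQ_short hdec hQ (local_const P)) hA hg
  refine ⟨h1.both, fun I hI => ?_⟩
  rw [h1.right I hI]
  have h2 := ell_lt_lam h I
  refine hQ I.1 _ _ I.2.1 I.2.2 fun q hq => ?_
  refine comb_congr hdec (fun u _ => rfl) (fun i m hm => hP i m ?_) q hq
  unfold ell at h2
  omega

theorem yes_comb (A B : Oracle) (z : List Bool) : Yes (comb A B) z ↔ Yes A z := Iff.rfl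

theorem code_comb (A B : Oracle) (I : Ins) : Pool.Agent.K6.H3.MW.code h (comb A B) I = Pool.Agent.K6.H3.MW.code h A I := by
  unfold Pool.Agent.K6.H3.MW.code
  exact List.map_congr_left fun i _ => comb_cs A B h I i

/-- the oracle together with the extension is right -/
theorem good_comb {P : Fam F} {A : Oracle} {L : ℕ} (hg : Good h (cQ Q dec fun _ => P) L A) :
    Good h Q L (comb A (ora dec P)) := by
  refine ⟨fun ℓ h3 hL p => ?_, fun I hI => ?_⟩
  · obtain ⟨z, h1, h2⟩ := hg.both ℓ h3 hL p
    exact ⟨z, h1, h2⟩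
  · rw [code_comb]
    exact hg.right I hI

end

end Pool.Agent.K6.H61.ALH
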