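import Pool.Agent.K6.H61.ALG.Defs

/-!
# An oracle together with an extension, as one oracle
-/

set_option autoImplicit false

namespace Pool.Agent.K6.H61.ALH

open Pool.Agent.H620R2.Gauge Pool.Agent.K6.H61.ALG

/-- The oracle `A`, with the questions beginning with `true, true, false` replaced by questions to
`B`. -/
def comb (A B : Oracle) : Oracle
  | true :: true :: false :: v => B v
  | q => A q

/-- The oracle `A` and its extension `P`: the questions beginning with `true, true, false` are about
the extension, all others are about `A`. -/
noncomputable def alg {ι : Type} {F : ι → Type} [∀ i, Field (F i)] (dec : List Bool → Quest F)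
    (x : Pair F) : Oracle := comb x.A (ora dec x.P)

end Pool.Agent.K6.H61.ALH
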