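import Pool.Agent.K6.H61.ALH.FusionA
import Pool.Agent.K6.H3.MW.Final

/-! The final theorem -/

set_option autoImplicit false

namespace Pool.Agent.K6.H61.ALH

open MvPolynomial Pool.Agent.NPC Pool.Agent.H620R2.Gauge Pool.Agent.TH678.SQ
  Pool.Agent.H622R2 Pool.Agent.K6.H3.MW Pool.Agent.K6.H61.ALG
open Pool.Agent.TH678.WP (ParaAny)

variable {ι : Type} {F : ι → Type} [∀ i, Field (F i)]

theorem mainA (dec : List Bool → Quest F) (hdec : ∀ q, (dec q).m ≤ q.length)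
    (Q : ℕ → Oracle → Set (List Bool × ℕ)) (h : ℕ → ℕ → ℕ)
    (hh : ∀ e, Computable (h e)) (hQ : ∀ e, Short (h e) (Q e)) :
    ∃ x : Pair F, (∀ P, InW1 (alg dec x) P → InM1 (alg dec x) P) ∧
      (∀ e, InM1 x.A (kHaltS e (alg dec x))) ∧ (∀ e, InM1 x.A (sents e (alg dec x))) ∧
      (∀ e, InM1 x.A (Q e (alg dec x))) ∧
      ∀ e, InW1 x.A (kHaltS e x.A) ∧ ¬ ParaAny (IsP (alg dec x)) (kHaltS e x.A) ∧
        InW1 (alg dec x) (kHaltS e (alg dec x)) ∧
        ¬ ParaAny (IsP (alg dec x)) (kHaltS e (alg dec x)) ∧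
        ∀ (M : Alg) (c k : ℕ) (σ : List Bool), (∀ n, M.p.eval n ≤ (n + 2) ^ c) → c + 2 ≤ k →
          ∃ y : List Bool,
            ¬ ((y, k) ∈ kHaltS e x.A ↔ M.out (alg dec x) (pairBits σ y) = some [true]) ∧
            ((y, k) ∈ kHaltS e x.A ↔ (y, k) ∈ kHaltS e (alg dec x)) := by
  obtain ⟨x, h1, h2⟩ := exists_pair (F := F) (h := famH h) (Q := fam Q) hdec (fam_short hQ)
  have hO : ∀ L, Good (famH h) (fam Q) L (alg dec x) := fun L => good_comb (h1 L)
  have hsl : ∀ (e : ℕ) (M : Alg) (c k : ℕ) (σ : List Bool), (∀ n, M.p.eval n ≤ (n + 2) ^ c) →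
      c + 2 ≤ k → ∃ y : List Bool, ¬ ((y, k) ∈ kHaltS e x.A ↔
        M.out (alg dec x) (pairBits σ y) = some [true]) ∧
        ((y, k) ∈ kHaltS e x.A ↔ (y, k) ∈ kHaltS e (alg dec x)) := fun e M c k σ hM hck =>
    h2 (e, M, c, k, σ) hM hck
  refine ⟨x, fun P hP => ?_, fun e => ?_, fun e => ?_, fun e => ?_, fun e =>
    ⟨inW1_kHaltS e _, ?_, inW1_kHaltS e _, ?_, hsl e⟩⟩
  · refine w1_sub_m1 (alg dec x) hO (fun e => ⟨3 * e, ?_, ?_⟩) hP
    · unfold famH
      rw [if_pos (by omega), show 3 * e / 3 = e by omega]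
    · unfold fam
      rw [if_pos (by omega), show 3 * e / 3 = e by omega]
  · have h3 := inM1_of_good x.A h1 (3 * e) (by
      unfold famH
      rw [if_pos (by omega)]
      exact comp_mul _)
    unfold cQ fam at h3
    rw [if_pos (by omega), show 3 * e / 3 = e by omega] at h3
    exact h3
  · have h3 := inM1_of_good x.A h1 (3 * e + 1) (by
      unfold famH
      rw [if_neg (by omega), if_pos (by omega)]
      exact comp_mul _)
    unfold cQ fam at h3
    rw [if_neg (by omega), if_pos (by omega), show (3 * e + 1) / 3 = e by omega] at h3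
    exact h3
  · have h3 := inM1_of_good x.A h1 (3 * e + 2) (by
      unfold famH
      rw [if_neg (by omega), if_neg (by omega)]
      exact hh _)
    unfold cQ fam at h3
    rw [if_neg (by omega), if_neg (by omega), show (3 * e + 2) / 3 = e by omega] at h3
    exact h3
  · rintro ⟨π, L, ⟨V, ⟨M, hM⟩, hV⟩, hL⟩
    obtain ⟨c, _, hc⟩ := Pool.Agent.H622R2.Exp.YAux.poly_bound M.p
    obtain ⟨y, hy, _⟩ := hsl e M c (c + 2) (π (c + 2)) hc le_rfl
    apply hy
    rw [hL y (c + 2), hV, hM, Option.some.injEq]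
  · rintro ⟨π, L, ⟨V, ⟨M, hM⟩, hV⟩, hL⟩
    obtain ⟨c, _, hc⟩ := Pool.Agent.H622R2.Exp.YAux.poly_bound M.p
    obtain ⟨y, hy, hy'⟩ := hsl e M c (c + 2) (π (c + 2)) hc le_rfl
    apply hy
    rw [hy', hL y (c + 2), hV, hM, Option.some.injEq]

end Pool.Agent.K6.H61.ALH
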