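import Pool.Agent.K6.H61.ALH.StarA

/-! The two oracles at the end of a step of the construction -/

set_option autoImplicit false

namespace Pool.Agent.K6.H61.ALH

open Pool.Agent.NPC Pool.Agent.H620R2.Gauge Pool.Agent.TH678.SQ Pool.Agent.H622R2
  Pool.Agent.K6.H3.MW

/-- A change of the problems which does not concern the codes which are not prescribed. -/
theorem IsW_change {h : ℕ → ℕ → ℕ} {Q Q' : ℕ → Oracle → Set (List Bool × ℕ)} {O₀ : Oracle} {L : ℕ}
    {S : List Bool → Oracle → Prop} {D : Ins → Option (List Bool)} {W : Oracle}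
    (hW : IsW h Q O₀ L S D W)
    (hD : ∀ I, D I = none → (Tr Q (cut W (lam h I)) I ↔ Tr Q' (cut W (lam h I)) I)) :
    IsW h Q' O₀ L S D W := by
  classical
  intro w
  rw [hW w]
  unfold Pool.Agent.K6.H3.MW.F
  split_ifs with hL
  · rfl
  rcases w with _ | ⟨c, v⟩
  · rfl
  cases c with
  | false => rfl
  | true =>
    by_cases hw : ∃ p : Ins × ℕ, p.2 < ell h p.1 ∧ true :: v = cs h p.1 p.2
    · have hlen : (true :: v).length = lam h hw.choose.1 := by
        conv_lhs => rw [hw.choose_spec.2]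
        exact length_cs h hw.choose_spec.1.le
      dsimp only
      rw [dif_pos hw, dif_pos hw]
      rcases hDI : D hw.choose.1 with _ | ρ
      · have h1 := hD _ hDI
        rw [← hlen] at h1
        rw [cand_congr (fun _ _ => rfl) h1]
      · rfl
    · dsimp only
      rw [dif_neg hw, dif_neg hw]

variable {h : ℕ → ℕ → ℕ} {Q : ℕ → Oracle → Set (List Bool × ℕ)}

open Classical in
theorem finish (hQ : ∀ e, Short (h e) (Q e)) (e c k m L τ : ℕ) (hm : 2 ≤ m) (hL : L < m)
    (hτ : τ = m * (c + 1)) (hck : c + 2 ≤ k) (O₀ : Oracle) (h0 : Good h Q L O₀)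
    (ρ : Ins → List Bool) (hfine : Fine h τ ρ) (O : Oracle)
    (hOW : IsW h Q O₀ L (fun v _ => v = List.replicate v.length true) (DS h τ ρ) O)
    (U : Set (List Bool)) (V : Finset (List Bool)) (hU : ∀ u ∈ U, u ∈ V)
    (hV : 2 * V.card < 2 ^ τ) (hinj : Set.InjOn ρ (tch h τ U)) :
    ∀ b : Bool, ∃ W : Oracle, (∀ L', Good h Q L' W) ∧
      (∀ q : List Bool, q.length ≤ L → W q = O₀ q) ∧ (∀ q ∈ U, W q = O q) ∧
      (∀ q : List Bool, q.length ≤ 2 * τ + 1 → W q = O q) ∧
      (HitR W (rr e m k) ↔ b = true) := by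
  set r := rr e m k with hr
  have hτm : m ≤ τ := by
    rw [hτ]
    exact Nat.le_mul_of_pos_right _ (by omega)
  -- the instances with prescribed codes
  set D : Ins → Option (List Bool) := fun I => if I ∈ tch h τ U then some (ρ I) else none
    with hD
  have hDs : ∀ J ρJ, D J = some ρJ → J ∈ tch h τ U ∧ ρJ = ρ J := by
    intro J ρJ hJ
    rw [hD] at hJ
    dsimp only at hJ
    split_ifs at hJ with h1
    exact ⟨h1, (Option.some.inj hJ).symm⟩
  -- the witnesses
  have hy : ∀ I : Ins, ∃ u : List Bool, u.length = ell h I ∧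
      (τ < ell h I → false :: (ρ I ++ u) ∉ U) := by
    intro I
    by_cases hI : τ < ell h I
    · obtain ⟨u, hu1, hu2⟩ := exists_str (ell h I) (fun u => false :: (ρ I ++ u))
        (fun u u' hu => List.append_cancel_left (List.cons.inj hu).2) V
        (lt_of_lt_of_le (show V.card < 2 ^ τ by omega)
          (Nat.pow_le_pow_right (by norm_num) hI.le))
      exact ⟨u, hu1, fun _ h1 => hu2 (hU _ h1)⟩
    · exact ⟨List.replicate _ true, List.length_replicate .., fun h1 => absurd h1 hI⟩
  choose y hy1 hy2 using hy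
  -- the hit
  obtain ⟨ι, hι⟩ : ∃ ι : Fin k → Fin (2 ^ m), ls (zr r ι) ∉ U := by
    by_contra hcon
    push Not at hcon
    have h1 := Finset.card_le_card_of_injOn (s := (Finset.univ : Finset (Fin k → Fin (2 ^ m))))
      (t := V) (fun ι => ls (zr r ι)) (fun ι _ => hU _ (hcon ι))
      (fun ι _ ι' _ hh => rr_inj hm (ls_inj hh))
    rw [Finset.card_univ, Fintype.card_fun, Fintype.card_fin, Fintype.card_fin, ← pow_mul] at h1
    have h2 : 2 ^ τ ≤ 2 ^ (m * k) := Nat.pow_le_pow_right (by norm_num) (by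
      rw [hτ]
      exact Nat.mul_le_mul_left _ (by omega))
    omega
  have hk : 1 ≤ k := by omega
  have hcatlen : ∀ ι' : Fin k → Fin (2 ^ m), 2 * τ < (cat (zr r ι')).length := by
    intro ι'
    rw [length_cat, hτ]
    have h1 : (c + 2) * ((e + 2) * m) ≤ k * ((e + 2) * m) := Nat.mul_le_mul_right _ hck
    have h2 : 2 * m ≤ (e + 2) * m := Nat.mul_le_mul_right _ (by omega)
    have h3 : (c + 2) * (2 * m) ≤ (c + 2) * ((e + 2) * m) := Nat.mul_le_mul_left _ h2
    have h4 : (c + 2) * (2 * m) = 2 * (m * (c + 1)) + 2 * m := by ring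
    omega
  have hdata : ∀ hit : List Bool → Prop, (∀ v, hit v → ∃ v', v = true :: v') →
      Data h O₀ L hit D y := by
    intro hit hhit
    refine ⟨fun J ρJ hJ => ?_, fun J J' ρJ hJ hJ' => ?_, hhit⟩
    · obtain ⟨h1, rfl⟩ := hDs J ρJ hJ
      obtain ⟨h2, h3⟩ := hfine J h1.1
      have h4 := h1.1
      exact ⟨h2, hy1 J, by omega, h3⟩
    · obtain ⟨h1, rfl⟩ := hDs J ρJ hJ
      obtain ⟨h2, h3⟩ := hDs J' _ hJ'
      exact hinj h1 h2 h3
  have hlow : ∀ (hit : List Bool → Prop) (W : Oracle),
      (∀ v, hit v → ∃ v', v = true :: v') → (∀ v, hit v → v = cat (zr r ι)) →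
      IsW h Q O₀ L (SF Q hit D y) D W → ∀ q : List Bool, q.length ≤ 2 * τ + 1 → W q = O q := by
    intro hit W hhit hhit' hW
    have hd := hdata hit hhit
    have hlow := agree_short hQ (τ := τ) hW hOW (fun v B hv => by
        unfold SF
        constructor
        · rintro (h1 | h1 | ⟨J, ρJ, h1, h2, _⟩)
          · exact h1
          · exfalso
            rw [hhit' v h1] at hv
            have := hcatlen ι
            omega
          · exfalso
            obtain ⟨g1, g2, _, _⟩ := hd.len J ρJ h1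
            obtain ⟨g3, _⟩ := hDs J ρJ h1
            have g4 := g3.1
            rw [h2, List.length_append, g1, g2] at hv
            omega
        · exact fun h1 => Or.inl h1) (fun _ _ _ => Iff.rfl) (fun I hI => by
        rw [hD]
        dsimp only
        rw [if_neg]
        rintro ⟨h1, _⟩
        omega) (fun _ => DS_none)
    exact fun q hq => hlow q.length q rfl hq
  have hagree : ∀ (hit : List Bool → Prop) (W : Oracle),
      (∀ v, hit v → ∃ v', v = true :: v') → (∀ v, hit v → v = cat (zr r ι)) →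
      IsW h Q O₀ L (SF Q hit D y) D W → ∀ q ∈ U, W q = O q := by
    intro hit W hhit hhit' hW q hq
    have hd := hdata hit hhit
    have hlow' := hlow hit W hhit hhit' hW
    refine hW.eq_of hQ hOW (fun v hv _ => ?_) (fun I i hi hc _ => ?_)
    · unfold SF
      constructor
      · rintro (h1 | h1 | ⟨J, ρJ, h1, h2, _⟩)
        · exact h1
        · exfalso
          rw [hv, hhit' v h1] at hq
          exact hι hq
        · exfalso
          obtain ⟨g3, g4⟩ := hDs J ρJ h1
          rw [hv, h2, g4] at hq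
          exact hy2 J g3.1 hq
      · exact fun h1 => Or.inl h1
    · by_cases hI : τ < ell h I
      · have h1 : I ∈ tch h τ U := ⟨hI, i, hi, hc ▸ hq⟩
        have h2 : D I = some (ρ I) := by
          rw [hD]
          dsimp only
          rw [if_pos h1]
        have h3 : DS h τ ρ I = some (ρ I) := by
          unfold DS
          rw [if_pos hI]
        rw [h2, h3]
        exact ⟨rfl, fun h4 => absurd h4 (Option.some_ne_none _)⟩
      · have h1 : D I = none := by
          rw [hD]
          dsimp only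
          rw [if_neg]
          rintro ⟨h2, _⟩
          exact hI h2
        refine ⟨by rw [h1, DS_none (not_lt.1 hI)], fun _ q' hq' => ?_⟩
        exact hlow' q' (by omega)
  have hstat : ∀ (hit : List Bool → Prop) (W : Oracle),
      (∀ v, hit v → ∃ v', v = true :: v') → IsW h Q O₀ L (SF Q hit D y) D W →
      ∀ ι' : Fin k → Fin (2 ^ m), (W (ls (zr r ι')) = true ↔ hit (cat (zr r ι'))) := by
    intro hit W hhit hW ι'
    have h1 := hcatlen ι'
    unfold ls
    rw [hW.stat (by omega)]
    unfold SF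
    constructor
    · rintro (h2 | h2 | ⟨J, ρJ, h2, h3, _⟩)
      · exact absurd h2 (cat_ne hm hk ι' _)
      · exact h2
      · exfalso
        obtain ⟨_, _, _, ρ', g1⟩ := (hdata hit hhit).len J ρJ h2
        obtain ⟨v, hv⟩ := cat_head (e := e) hm hk ι'
        rw [← hr] at hv
        rw [hv, g1, List.cons_append, List.cons.injEq] at h3
        exact Bool.false_ne_true h3.1.symm
    · exact fun h2 => Or.inr (Or.inl h2)
  -- the two oracles
  obtain ⟨v₀, hv₀⟩ := cat_head (e := e) hm hk ι
  rw [← hr] at hv₀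
  intro b
  set hit₁ : List Bool → Prop := fun v => b = true ∧ v = cat (zr r ι) with hhit₁
  have g1 : ∀ v, hit₁ v → ∃ v', v = true :: v' := fun v hv => ⟨v₀, hv.2.trans hv₀⟩
  have g2 : ∀ v, hit₁ v → v = cat (zr r ι) := fun v hv => hv.2
  obtain ⟨W₁, hW₁⟩ := exists_isW h Q O₀ L (SF Q hit₁ D y) D
  refine ⟨W₁, fun L' => good_final hQ h0 (hdata hit₁ g1) hW₁ L', fun q hq => hW₁.low hq,
    hagree hit₁ W₁ g1 g2 hW₁, hlow hit₁ W₁ g1 g2 hW₁, ?_, ?_⟩
  · rintro ⟨ι', hι'⟩
    exact ((hstat hit₁ W₁ g1 hW₁ ι').1 hι').1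
  · intro hb
    exact ⟨ι, (hstat hit₁ W₁ g1 hW₁ ι).2 ⟨hb, rfl⟩⟩

end Pool.Agent.K6.H61.ALH
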