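import Pool.Agent.K6.H61.ALH.OneA
import Pool.Agent.K6.H3.MW.Fusion

/-! The oracle and its extension -/

set_option autoImplicit false

namespace Pool.Agent.K6.H61.ALH

open MvPolynomial Pool.Agent.NPC Pool.Agent.H620R2.Gauge Pool.Agent.TH678.SQ
  Pool.Agent.H622R2 Pool.Agent.K6.H3.MW Pool.Agent.K6.H61.ALG

variable {ι : Type} {F : ι → Type} [∀ i, Field (F i)]

/-- the requirement: the algorithm `M` with few questions to the oracle and its extension, and with
the advice `σ`, makes an error on some instance with the parameter `k` of the halting problem -/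
def ReqA (dec : List Bool → Quest F) (j : ℕ × Alg × ℕ × ℕ × List Bool) (A : Oracle) (P : Fam F) :
    Prop :=
  (∀ n, j.2.1.p.eval n ≤ (n + 2) ^ j.2.2.1) → j.2.2.1 + 2 ≤ j.2.2.2.1 →
    ∃ x : List Bool, ¬ ((x, j.2.2.2.1) ∈ kHaltS j.1 A ↔
        j.2.1.out (comb A (ora dec P)) (pairBits j.2.2.2.2 x) = some [true]) ∧
      ((x, j.2.2.2.1) ∈ kHaltS j.1 A ↔ (x, j.2.2.2.1) ∈ kHaltS j.1 (comb A (ora dec P)))

/-- the approximations of the pair -/
structure Sta (h : ℕ → ℕ → ℕ) (Q : ℕ → Oracle → Set (List Bool × ℕ)) (dec : List Bool → Quest F) :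
    Type where
  A : Oracle
  P : Fam F
  L : ℕ
  isExt : IsExt A P
  good : Good h (cQ Q dec fun _ => P) L A

variable {h : ℕ → ℕ → ℕ} {Q : ℕ → Oracle → Set (List Bool × ℕ)} {dec : List Bool → Quest F}

theorem step_reqA (hdec : ∀ q, (dec q).m ≤ q.length) (hQ : ∀ e, Short (h e) (Q e))
    (j : ℕ × Alg × ℕ × ℕ × List Bool) (s : Sta h Q dec) : ∃ s' : Sta h Q dec, s.L < s'.L ∧
      (∀ q : List Bool, q.length ≤ s.L → s'.A q = s.A q) ∧
      (∀ i m, m ≤ s.L → s'.P (i, m) = s.P (i, m)) ∧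
      ∀ (A : Oracle) (P : Fam F), (∀ q : List Bool, q.length ≤ s'.L → A q = s'.A q) →
        (∀ i m, m ≤ s'.L → P (i, m) = s'.P (i, m)) → ReqA dec j A P := by
  by_cases hj : (∀ n, j.2.1.p.eval n ≤ (n + 2) ^ j.2.2.1) ∧ j.2.2.1 + 2 ≤ j.2.2.2.1
  · obtain ⟨O', P', h1, h2, h3, h4, x, h5, h6⟩ := oneA hdec hQ j.1 j.2.1 j.2.2.1 j.2.2.2.1
      j.2.2.2.2 hj.1 hj.2 s.A s.P s.isExt s.L s.good
    obtain ⟨qb, hqb⟩ := j.2.1.out_local
    obtain ⟨Qs, _, hQ2, hQ3⟩ := hqb (comb O' (ora dec P')) (pairBits j.2.2.2.2 x)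
    set L' := max (s.L + 1) (max (qb.eval (pairBits j.2.2.2.2 x).length)
      ((j.1 + 2) * j.2.2.2.1 * (Nat.log 2 x.length + 1))) with hL'
    refine ⟨⟨O', P', L', h1, h2 L'⟩, ?_, h3, h4, fun A P hA hP _ _ => ⟨x, fun hcon => h5 ?_, ?_⟩⟩
    · exact lt_of_lt_of_le (Nat.lt_succ_self s.L) (le_max_left _ _)
    · have hc : ∀ q : List Bool, q.length ≤ L' → comb A (ora dec P) q =
          comb O' (ora dec P') q := fun q hq => comb_congr hdec hA hP q hq
      rw [hQ3 (comb A (ora dec P)) fun q hq => hc q ((hQ2 q hq).trans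
        ((le_max_left _ _).trans (le_max_right _ _)))] at hcon
      rw [← kHaltS_short j.1 A O' x j.2.2.2.1 fun q hq => hA q (hq.trans
        ((le_max_right _ _).trans (le_max_right _ _)))]
      exact hcon
    · have hc : ∀ q : List Bool, q.length ≤ L' → comb A (ora dec P) q =
          comb O' (ora dec P') q := fun q hq => comb_congr hdec hA hP q hq
      rw [kHaltS_short j.1 A O' x j.2.2.2.1 fun q hq => hA q (hq.trans
        ((le_max_right _ _).trans (le_max_right _ _))), h6]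
      exact (kHaltS_short j.1 _ _ x j.2.2.2.1 fun q hq => hc q (hq.trans
        ((le_max_right _ _).trans (le_max_right _ _)))).symm
  · have hG := gb_local s.P s.L
    have hQ' := cQ_short hdec hQ hG
    obtain ⟨W, hW⟩ := exists_isW h (cQ Q dec (Gb s.P s.L)) s.A s.L
      (SF (cQ Q dec (Gb s.P s.L)) (fun _ => False) (fun _ => none) (fun _ => []))
      (fun _ => none)
    have hd : Data h s.A s.L (fun _ => False) (fun _ => none) (fun _ => []) :=
      ⟨fun J ρ h => absurd h (by simp), fun J J' ρ h => absurd h (by simp),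
        fun v hv => hv.elim⟩
    have h0 : Good h (cQ Q dec (Gb s.P s.L)) s.L s.A :=
      good_of_const (good_pair hdec hQ (fun _ _ => rfl)
        (fun i m hm => (if_pos hm : Gb s.P s.L s.A (i, m) = s.P (i, m)).symm) s.good)
    have hlow : ∀ q : List Bool, q.length ≤ s.L → W q = s.A q := fun q hq => hW.low hq
    exact ⟨⟨W, Gb s.P s.L W, s.L + 1, gb_ext s.isExt hlow, good_const (good_final hQ' h0 hd hW _)⟩,
      Nat.lt_succ_self s.L, hlow, fun i m hm => if_pos hm,
      fun A P _ _ h1 h2 => absurd ⟨h1, h2⟩ hj⟩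

theorem exists_pair (hdec : ∀ q, (dec q).m ≤ q.length) (hQ : ∀ e, Short (h e) (Q e)) :
    ∃ x : Pair F, (∀ L, Good h (cQ Q dec fun _ => x.P) L x.A) ∧ ∀ j, ReqA dec j x.A x.P := by
  classical
  have hcn := CC.poly_countable
  have hne : Nonempty Alg := by
    obtain ⟨M, _⟩ := IsFP.of_poly (A := fun _ => false) (F := fun x : List Bool => x) NPC.Poly.id
    exact ⟨M⟩
  obtain ⟨f, hf⟩ := exists_surjective_nat (ℕ × Alg × ℕ × ℕ × List Bool)
  choose nxt hn1 hn2 hn3 hn4 using fun (s : Sta h Q dec) (n : ℕ) => step_reqA hdec hQ (f n) s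
  have hstart : Good h (cQ Q dec fun _ => (fun _ => 0 : Fam F)) 0 (fun _ => false) := by
    refine ⟨fun ℓ h3 hL => absurd hL (by omega), fun I hI => absurd hI ?_⟩
    rw [lam_eq]
    omega
  have hstart' : IsExt (fun _ => false) (fun _ => 0 : Fam F) := by
    intro i m
    refine ⟨fun j => ?_, fun b => ?_⟩
    · rw [degreeOf_zero]
      omega
    · rw [map_zero]
      unfold bt
      simp
  set s : ℕ → Sta h Q dec := fun n =>
    Nat.rec ⟨fun _ => false, fun _ => 0, 0, hstart', hstart⟩ (fun n p => nxt p n) n with hs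
  have s1 : ∀ n, (s n).L < (s (n + 1)).L := fun n => hn1 (s n) n
  have s2 : ∀ n (q : List Bool), q.length ≤ (s n).L → (s (n + 1)).A q = (s n).A q :=
    fun n => hn2 (s n) n
  have s2' : ∀ n i m, m ≤ (s n).L → (s (n + 1)).P (i, m) = (s n).P (i, m) :=
    fun n => hn3 (s n) n
  have s3 : ∀ n (A : Oracle) (P : Fam F), (∀ q : List Bool, q.length ≤ (s (n + 1)).L →
      A q = (s (n + 1)).A q) → (∀ i m, m ≤ (s (n + 1)).L → P (i, m) = (s (n + 1)).P (i, m)) →
      ReqA dec (f n) A P := fun n => hn4 (s n) n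
  have s4 : ∀ n, n ≤ (s n).L := by
    intro n
    induction n with
    | zero => exact Nat.zero_le _
    | succ n ih =>
      have := s1 n
      omega
  have s5 : ∀ n d m : ℕ, m ≤ (s n).L → m ≤ (s (n + d)).L ∧
      (∀ q : List Bool, q.length = m → (s (n + d)).A q = (s n).A q) ∧
      ∀ i, (s (n + d)).P (i, m) = (s n).P (i, m) := by
    intro n d m hm
    induction d with
    | zero => exact ⟨hm, fun _ _ => rfl, fun _ => rfl⟩
    | succ d ih =>
      obtain ⟨i1, i2, i3⟩ := ih
      have h2 := s1 (n + d)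
      refine ⟨?_, fun q hq => ?_, fun i => ?_⟩
      · rw [← add_assoc]
        omega
      · rw [← add_assoc, s2 (n + d) q (by omega), i2 q hq]
      · rw [← add_assoc, s2' (n + d) i m i1, i3 i]
  set O : Oracle := fun q => (s q.length).A q with hO
  set P : Fam F := fun p => (s p.2).P p with hP
  have s6 : ∀ n (q : List Bool), q.length ≤ (s n).L → O q = (s n).A q := by
    intro n q hq
    rw [hO]
    dsimp only
    rcases Nat.le_total n q.length with h1 | h1
    · obtain ⟨d, hd⟩ := Nat.exists_eq_add_of_le h1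
      have h2 := (s5 n d q.length hq).2.1 q rfl
      rw [← hd] at h2
      exact h2
    · obtain ⟨d, hd⟩ := Nat.exists_eq_add_of_le h1
      have h2 := (s5 q.length d q.length (s4 _)).2.1 q rfl
      rw [← hd] at h2
      exact h2.symm
  have s7 : ∀ n i m, m ≤ (s n).L → P (i, m) = (s n).P (i, m) := by
    intro n i m hm
    rw [hP]
    dsimp only
    rcases Nat.le_total n m with h1 | h1
    · obtain ⟨d, hd⟩ := Nat.exists_eq_add_of_le h1
      have h2 := (s5 n d m hm).2.2 i
      rw [← hd] at h2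
      exact h2
    · obtain ⟨d, hd⟩ := Nat.exists_eq_add_of_le h1
      have h2 := (s5 m d m (s4 _)).2.2 i
      rw [← hd] at h2
      exact h2.symm
  have hext : IsExt O P := by
    intro i m
    have h1 : P (i, m) = (s m).P (i, m) := s7 m i m (s4 m)
    rw [h1]
    refine ⟨((s m).isExt i m).1, fun b => ?_⟩
    rw [((s m).isExt i m).2 b, s6 m _ (by rw [List.length_ofFn]; exact s4 m)]
  refine ⟨⟨(O, P), hext⟩, fun L => ?_, fun j => ?_⟩
  · have h1 : Good h (cQ Q dec fun _ => P) (s L).L O :=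
      good_pair hdec hQ (fun q hq => (s6 L q hq).symm) (fun i m hm => (s7 L i m hm).symm) (s L).good
    have h2 := s4 L
    exact ⟨fun ℓ h3 hL => h1.both ℓ h3 (hL.trans h2), fun I hI => h1.right I (hI.trans h2)⟩
  · obtain ⟨n, rfl⟩ := hf j
    exact s3 n O P (fun q hq => s6 (n + 1) q hq) (fun i m hm => s7 (n + 1) i m hm)

end Pool.Agent.K6.H61.ALH
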