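import Pool.Agent.K6.H61.ALH.Finish

/-! One error of an algorithm with questions to an extension -/

set_option autoImplicit false

namespace Pool.Agent.K6.H61.ALH

open MvPolynomial Pool.Agent.NPC Pool.Agent.H620R2.Gauge Pool.Agent.TH678.SQ
  Pool.Agent.H622R2 Pool.Agent.K6.H3.MW Pool.Agent.K6.H61.ALG

variable {ι : Type} {F : ι → Type} [∀ i, Field (F i)] {h : ℕ → ℕ → ℕ}
  {Q : ℕ → Oracle → Set (List Bool × ℕ)} {dec : List Bool → Quest F}

theorem hitR_comb {k l n : ℕ} (A B : Oracle) (r : Fin k → Fin n → Fin l → Bool) :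
    HitR (comb A B) r ↔ HitR A r := by
  unfold HitR
  refine exists_congr fun τ => ?_
  show comb A B (false :: cat (zr r τ)) = true ↔ A (false :: cat (zr r τ)) = true
  rw [comb_false]

theorem spoS_empty {u : List Bool} : u ∉ SpoS dec ∅ := by
  obtain ⟨U, h1, h2⟩ := spoS_card dec ∅
  rw [Finset.card_empty, Nat.le_zero, Finset.card_eq_zero] at h1
  intro hu
  have h3 := h2 u hu
  rw [h1] at h3
  exact absurd h3 (Finset.notMem_empty _)

open Classical in
theorem oneA (hdec : ∀ q, (dec q).m ≤ q.length) (hQ : ∀ e, Short (h e) (Q e)) (e : ℕ) (M : Alg)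
    (c k : ℕ) (σ : List Bool) (hM : ∀ n, M.p.eval n ≤ (n + 2) ^ c) (hck : c + 2 ≤ k)
    (O₀ : Oracle) (P₀ : Fam F) (hext : IsExt O₀ P₀) (L : ℕ)
    (h0 : Good h (cQ Q dec fun _ => P₀) L O₀) : ∃ (A : Oracle) (P : Fam F), IsExt A P ∧
      (∀ L', Good h (cQ Q dec fun _ => P) L' A) ∧
      (∀ q : List Bool, q.length ≤ L → A q = O₀ q) ∧
      (∀ i m, m ≤ L → P (i, m) = P₀ (i, m)) ∧
      ∃ x : List Bool, ¬ ((x, k) ∈ kHaltS e A ↔
          M.out (comb A (ora dec P)) (pairBits σ x) = some [true]) ∧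
        ((x, k) ∈ kHaltS e A ↔ (x, k) ∈ kHaltS e (comb A (ora dec P))) := by
  obtain ⟨m, hm, hL, hnum⟩ := numbers σ.length (120 * (k + 2) ^ 2 * (e + 2)) c L
  set r := rr e m k with hr
  set x := Xq r with hx
  set inp := pairBits σ x with hinp
  have hlenx : x.length ≤ 120 * (k + 2) ^ 2 * (e + 2) * ((m + 1) * 2 ^ m) :=
    length_Xq e m (by omega) r
  set n := M.p.eval inp.length with hn
  obtain ⟨τ, hτ⟩ : ∃ τ, τ = m * (c + 1) := ⟨_, rfl⟩
  have hτm : m ≤ τ := by
    rw [hτ]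
    exact Nat.le_mul_of_pos_right _ (by omega)
  have hnτ : 2 * n < 2 ^ τ := by
    refine lt_of_le_of_lt (Nat.mul_le_mul_left 2 ((hM _).trans (Nat.pow_le_pow_left ?_ c)))
      (hτ ▸ hnum)
    rw [hinp, length_pairBits]
    omega
  have hnτ' : n < 2 ^ (τ - 1) := by
    obtain ⟨τ', rfl⟩ : ∃ τ', τ = τ' + 1 := ⟨τ - 1, by omega⟩
    rw [pow_succ] at hnτ
    rw [Nat.add_sub_cancel]
    omega
  have hk : 1 ≤ k := by omega
  have hQs : ∀ e, Short (h e) (cQ Q dec (Gb P₀ L) e) := cQ_short hdec hQ (gb_local P₀ L)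
  have hlowL : ∀ (ρ : Ins → List Bool) (u : List Bool), u.length ≤ L →
      sta h Q dec O₀ P₀ L τ ρ u = O₀ u := fun ρ u hu => (star_isW h _ O₀ L τ ρ).low hu
  -- the run
  set ρ₀ : Ins → List Bool := fun I => false :: true :: List.replicate (ell h I - 2) false
    with hρ₀
  have hinv : Inv h Q dec O₀ P₀ L τ ρ₀ (Gb P₀ L (sta h Q dec O₀ P₀ L τ ρ₀)) := by
    refine ⟨fun I hI => ?_, gb_ext hext fun u hu => hlowL ρ₀ u hu, fun i m _ => rfl⟩
    refine ⟨?_, _, rfl⟩
    rw [List.length_cons, List.length_cons, List.length_replicate]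
    omega
  have hinj0 : Set.InjOn ρ₀ (tch h τ (SpoS dec ∅ ∪ ↑(∅ : Finset (List Bool)))) := by
    rintro I ⟨_, i, _, hI⟩
    rcases hI with hI | hI
    · exact absurd hI spoS_empty
    · exact absurd hI (by simp)
  obtain ⟨ρ, P', QQ, DA, hI, hinj, _, _, hcard, _, _, hcov⟩ := adaptA hdec hQ M inp n [] ∅ ∅ ρ₀ _
    hinv hinj0 (by simpa using hnτ')
  rw [Finset.card_empty, Nat.add_zero, Nat.zero_add] at hcard
  obtain ⟨V, hV1, hV2⟩ := spoS_card dec QQ
  set O := sta h Q dec O₀ P₀ L τ ρ with hO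
  obtain ⟨G, k1, k2, k3, k4⟩ := hide2 dec QQ O P' hI.isExt
  have hG : Local G := fun i m A B hAB => k2 i m A B hAB
  have hQ' : ∀ e, Short (h e) (cQ Q dec G e) := cQ_short hdec hQ hG
  have hOW : IsW h (cQ Q dec G) O₀ L (fun v _ => v = List.replicate v.length true)
      (DS h τ ρ) O := by
    refine IsW_change (star_isW h (cQ Q dec (Gb P₀ L)) O₀ L τ ρ) fun I hDI => ?_
    have hell : ell h I ≤ τ := by
      by_contra hcon
      unfold DS at hDI
      rw [if_pos (not_le.1 hcon)] at hDI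
      exact Option.some_ne_none _ hDI
    have h2 := ell_lt_lam h I
    show I.2 ∈ Q I.1 (comb (cut O (lam h I)) (ora dec (Gb P₀ L (cut O (lam h I))))) ↔
      I.2 ∈ Q I.1 (comb (cut O (lam h I)) (ora dec (G (cut O (lam h I)))))
    refine hQ I.1 _ _ I.2.1 I.2.2 fun q hq => comb_congr hdec (fun _ _ => rfl)
      (fun i m' hm' => ?_) q hq
    have h3 : m' < ell h I := by
      unfold ell
      omega
    have h4 : ∀ u : List Bool, u.length = m' → cut O (lam h I) u = O u := fun u hu =>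
      cut_eq (by omega)
    rw [k1 i m' _ h4, hI.low i m' (by omega)]
    exact gb_local P₀ L i m' _ _ h4
  have hGO : ∀ W : Oracle, (∀ u : List Bool, u.length ≤ L → W u = O₀ u) → ∀ i m', m' ≤ L →
      G W (i, m') = P₀ (i, m') := by
    intro W hW i m' hm'
    rw [k1 i m' W fun u hu => by rw [hW u (by omega), hO, hlowL ρ u (by omega)],
      hI.low i m' (by omega)]
    exact if_pos hm'
  have h0' : Good h (cQ Q dec G) L O₀ :=
    good_of_const (good_pair hdec hQ (fun _ _ => rfl)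
      (fun i m' hm' => (hGO O₀ (fun _ _ => rfl) i m' hm').symm) h0)
  set b : Bool := if M.out (comb O (ora dec P')) inp = some [true] then false else true with hb
  obtain ⟨W, w1, w2, w3, _, w5⟩ := finish hQ' e c k m L τ hm hL hτ hck O₀ h0' ρ hI.fine O hOW
    (SpoS dec QQ ∪ ↑DA) (V ∪ DA) (by
      rintro u (hu | hu)
      · exact Finset.mem_union_left _ (hV2 u hu)
      · exact Finset.mem_union_right _ hu) (by
      have h1 := Finset.card_union_le V DA
      omega) hinj b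
  have hrun : M.out (comb W (ora dec (G W))) inp = M.out (comb O (ora dec P')) inp := by
    refine run_qs M _ _ inp n [] fun q hq => ?_
    rcases hcov q hq with ⟨v, hv, rfl⟩ | ⟨hq1, hq2⟩
    · rw [comb_ext, comb_ext]
      exact k4 v hv W
    · rw [comb_other _ _ hq2, comb_other _ _ hq2]
      exact w3 q (Or.inr hq1)
  refine ⟨W, G W, fun i m' => k3 i m' W fun u hu _ => w3 u (Or.inl hu),
    fun L' => good_const (w1 L'), w2, hGO W w2, x, ?_, ?_⟩
  · rw [hrun, hx, kHaltS_iff W hk r, w5, hb]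
    split_ifs with hout
    · simp [hout]
    · simp [hout]
  · rw [hx, kHaltS_iff W hk r, kHaltS_iff _ hk r, hitR_comb]

end Pool.Agent.K6.H61.ALH
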