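import Pool.Agent.K6.H61.ALH.Comb

/-! Codes which an algorithm with questions to an extension cannot tell from random strings -/

set_option autoImplicit false

namespace Pool.Agent.K6.H61.ALH

open MvPolynomial Pool.Agent.NPC Pool.Agent.H620R2.Gauge Pool.Agent.TH678.SQ
  Pool.Agent.H622R2 Pool.Agent.K6.H3.MW Pool.Agent.K6.H61.ALG

/-- the instances whose codes are touched by the set `U` -/
def tch (h : ℕ → ℕ → ℕ) (τ : ℕ) (U : Set (List Bool)) : Set Ins :=
  {I | τ < ell h I ∧ ∃ i < ell h I, cs h I i ∈ U}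

theorem tch_mono {h : ℕ → ℕ → ℕ} {τ : ℕ} {U U' : Set (List Bool)} (hU : U ⊆ U') :
    tch h τ U ⊆ tch h τ U' := by
  rintro I ⟨h1, i, hi, h2⟩
  exact ⟨h1, i, hi, hU h2⟩

theorem tch_fin {h : ℕ → ℕ → ℕ} {τ : ℕ} {U : Set (List Bool)} {V : Finset (List Bool)}
    (hU : ∀ u ∈ U, u ∈ V) : ∃ T : Finset Ins, (T : Set Ins) = tch h τ U ∧ T.card ≤ V.card := by
  classical
  have hex : ∀ I : Ins, ∃ u : List Bool, I ∈ tch h τ U → u ∈ V ∧ ∃ i, u = cs h I i := by
    intro I
    by_cases hI : I ∈ tch h τ U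
    · obtain ⟨_, i, _, h2⟩ := hI
      exact ⟨_, fun _ => ⟨hU _ h2, i, rfl⟩⟩
    · exact ⟨[], fun h1 => absurd h1 hI⟩
  choose f hf using hex
  have hinj : Set.InjOn f (tch h τ U) := by
    intro I hI J hJ hIJ
    obtain ⟨_, i, hi⟩ := hf I hI
    obtain ⟨_, j, hj⟩ := hf J hJ
    exact (cs_inj h (hi.symm.trans (hIJ.trans hj))).1
  have hmaps : ∀ I ∈ tch h τ U, f I ∈ (V : Set (List Bool)) := fun I hI => (hf I hI).1
  have hfin : (tch h τ U).Finite := Set.Finite.of_injOn hmaps hinj V.finite_toSet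
  refine ⟨hfin.toFinset, hfin.coe_toFinset, ?_⟩
  refine Finset.card_le_card_of_injOn f (fun I hI => ?_) (fun I hI J hJ => ?_)
  · exact hmaps I (hfin.mem_toFinset.1 hI)
  · exact hinj (hfin.mem_toFinset.1 hI) (hfin.mem_toFinset.1 hJ)

/-- new codes for finitely many instances -/
theorem recode {h : ℕ → ℕ → ℕ} {τ : ℕ} (N : Finset Ins) : ∀ (T : Finset Ins)
    (ρ : Ins → List Bool), Fine h τ ρ → Set.InjOn ρ T → (∀ I ∈ N, τ < ell h I ∧ I ∉ T) →
    T.card + N.card < 2 ^ (τ - 1) → ∃ ρ₁ : Ins → List Bool, Fine h τ ρ₁ ∧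
      (∀ I, I ∉ N → ρ₁ I = ρ I) ∧ Set.InjOn ρ₁ (↑T ∪ ↑N) := by
  classical
  induction N using Finset.induction_on with
  | empty =>
    intro T ρ hρ hinj _ _
    refine ⟨ρ, hρ, fun _ _ => rfl, ?_⟩
    rw [Finset.coe_empty, Set.union_empty]
    exact hinj
  | insert I N hIN ih =>
    intro T ρ hρ hinj hN hcard
    rw [Finset.card_insert_of_notMem hIN] at hcard
    obtain ⟨hI, hIT⟩ := hN I (Finset.mem_insert_self _ _)
    obtain ⟨v, hv1, hv2⟩ := exists_str (ell h I - 2) (fun v => false :: true :: v)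
      (fun v v' hv => (List.cons.inj (List.cons.inj hv).2).2) (T.image ρ) (by
        refine lt_of_le_of_lt Finset.card_image_le (lt_of_lt_of_le
          (lt_of_le_of_lt (Nat.le_add_right _ _) hcard)
          (Nat.pow_le_pow_right (by norm_num) (by omega))))
    have h3 : 3 ≤ ell h I := by unfold ell; omega
    set ρ₁ : Ins → List Bool := Function.update ρ I (false :: true :: v) with hρ₁
    have h4 : ρ₁ I = false :: true :: v := by rw [hρ₁, Function.update_self]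
    have h5 : ∀ J, J ≠ I → ρ₁ J = ρ J := fun J hJ => by
      rw [hρ₁, Function.update_of_ne hJ]
    have hfine : Fine h τ ρ₁ := by
      intro J hJ
      by_cases hJI : J = I
      · subst hJI
        rw [h4]
        refine ⟨?_, v, rfl⟩
        rw [List.length_cons, List.length_cons, hv1]
        omega
      · rw [h5 J hJI]
        exact hρ J hJ
    have hinj₁ : Set.InjOn ρ₁ (insert I T : Finset Ins) := by
      rw [Finset.coe_insert, Set.injOn_insert (by simpa using hIT)]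
      constructor
      · intro J hJ J' hJ' hJJ
        rw [h5 J (by rintro rfl; exact hIT hJ), h5 J' (by rintro rfl; exact hIT hJ')] at hJJ
        exact hinj hJ hJ' hJJ
      · rintro ⟨J, hJ, hJJ⟩
        have hJI : J ≠ I := by rintro rfl; exact hIT hJ
        rw [h5 J hJI, h4] at hJJ
        exact hv2 (Finset.mem_image.2 ⟨J, hJ, hJJ⟩)
    obtain ⟨ρ', g1, g2, g3⟩ := ih (insert I T) ρ₁ hfine hinj₁ (fun J hJ =>
      ⟨(hN J (Finset.mem_insert_of_mem hJ)).1, fun hcon => by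
        rcases Finset.mem_insert.1 hcon with h6 | h6
        · subst h6
          exact hIN hJ
        · exact (hN J (Finset.mem_insert_of_mem hJ)).2 h6⟩)
      (by rw [Finset.card_insert_of_notMem hIT]; omega)
    refine ⟨ρ', g1, fun J hJ => ?_, g3.mono ?_⟩
    · rw [g2 J fun h6 => hJ (Finset.mem_insert_of_mem h6), h5 J]
      rintro rfl
      exact hJ (Finset.mem_insert_self _ _)
    · rw [Finset.coe_insert, Finset.coe_insert]
      rintro J (hJ | hJ)
      · exact Or.inl (Or.inr hJ)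
      · rcases hJ with hJ | hJ
        · exact Or.inl (Or.inl hJ)
        · exact Or.inr hJ

section
variable {ι : Type} {F : ι → Type} [∀ i, Field (F i)]

/-- the extension which is `P₀` up to the level `L` and multilinear from there on -/
noncomputable def Gb (P₀ : Fam F) (L : ℕ) (A : Oracle) : Fam F :=
  fun p => if p.2 ≤ L then P₀ p else ext F A p

theorem gb_local (P₀ : Fam F) (L : ℕ) : Local (Gb P₀ L) := by
  intro i m A B hAB
  unfold Gb
  dsimp only
  split_ifs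
  · rfl
  · exact ext_congr hAB

theorem gb_ext {P₀ : Fam F} {L : ℕ} {O₀ A : Oracle} (h0 : IsExt O₀ P₀)
    (hA : ∀ u : List Bool, u.length ≤ L → A u = O₀ u) : IsExt A (Gb P₀ L A) := by
  intro i m
  unfold Gb
  dsimp only
  split_ifs with hm
  · refine ⟨(h0 i m).1, fun b => ?_⟩
    rw [hA _ (by rw [List.length_ofFn]; exact hm)]
    exact (h0 i m).2 b
  · exact isExt_ext A i m

variable (h : ℕ → ℕ → ℕ) (Q : ℕ → Oracle → Set (List Bool × ℕ)) (dec : List Bool → Quest F)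
  (O₀ : Oracle) (P₀ : Fam F) (L τ : ℕ)

/-- the oracle in which all long codes are given by `ρ` -/
noncomputable def sta (ρ : Ins → List Bool) : Oracle := star h (cQ Q dec (Gb P₀ L)) O₀ L τ ρ

/-- the pairs in the construction -/
structure Inv (ρ : Ins → List Bool) (P : Fam F) : Prop where
  fine : Fine h τ ρ
  isExt : IsExt (sta h Q dec O₀ P₀ L τ ρ) P
  low : ∀ i m, m ≤ 2 * τ + 1 → P (i, m) = Gb P₀ L (sta h Q dec O₀ P₀ L τ ρ) (i, m)

variable {h Q dec O₀ P₀ L τ}

theorem sta_low (hdec : ∀ q, (dec q).m ≤ q.length) (hQ : ∀ e, Short (h e) (Q e))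
    (ρ ρ' : Ins → List Bool) (u : List Bool) (hu : u.length ≤ 2 * τ + 1) :
    sta h Q dec O₀ P₀ L τ ρ u = sta h Q dec O₀ P₀ L τ ρ' u := by
  unfold sta
  exact agree_short (cQ_short hdec hQ (gb_local P₀ L)) (star_isW h _ O₀ L τ ρ)
    (star_isW h _ O₀ L τ ρ') (τ := τ) (fun _ _ _ => Iff.rfl) (fun _ _ _ => Iff.rfl)
    (fun _ => DS_none) (fun _ => DS_none) u.length u rfl hu

/-- one step of the construction -/
theorem step (hdec : ∀ q, (dec q).m ≤ q.length) (hQ : ∀ e, Short (h e) (Q e))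
    {QQ DA QQ₁ DA₁ : Finset (List Bool)} (hQQ : QQ ⊆ QQ₁) (hDA : DA ⊆ DA₁)
    (hcard : QQ₁.card + DA₁.card < 2 ^ (τ - 1)) {ρ : Ins → List Bool} {P : Fam F}
    (hI : Inv h Q dec O₀ P₀ L τ ρ P)
    (hinj : Set.InjOn ρ (tch h τ (SpoS dec QQ ∪ ↑DA))) :
    ∃ (ρ₁ : Ins → List Bool) (P₁ : Fam F), Inv h Q dec O₀ P₀ L τ ρ₁ P₁ ∧
      Set.InjOn ρ₁ (tch h τ (SpoS dec QQ₁ ∪ ↑DA₁)) ∧
      (∀ u ∈ DA, sta h Q dec O₀ P₀ L τ ρ₁ u = sta h Q dec O₀ P₀ L τ ρ u) ∧
      ∀ q ∈ QQ, ora dec P₁ q = ora dec P q := by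
  classical
  have hU : SpoS dec QQ ∪ (DA : Set (List Bool)) ⊆ SpoS dec QQ₁ ∪ ↑DA₁ :=
    Set.union_subset_union (spoS_mono dec hQQ) (Finset.coe_subset.2 hDA)
  obtain ⟨V, hV1, hV2⟩ := spoS_card dec QQ₁
  have hV3 : ∀ u ∈ SpoS dec QQ₁ ∪ (DA₁ : Set (List Bool)), u ∈ V ∪ DA₁ := by
    rintro u (hu | hu)
    · exact Finset.mem_union_left _ (hV2 u hu)
    · exact Finset.mem_union_right _ hu
  obtain ⟨T₁, hT₁, hT₁c⟩ := tch_fin (h := h) (τ := τ) hV3
  obtain ⟨T, hT, _⟩ := tch_fin (h := h) (τ := τ) fun u hu => hV3 u (hU hu)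
  have hTT : T ⊆ T₁ := by
    rw [← Finset.coe_subset, hT, hT₁]
    exact tch_mono hU
  have hcT : T₁.card < 2 ^ (τ - 1) := by
    have h1 := Finset.card_union_le V DA₁
    omega
  obtain ⟨ρ₁, g1, g2, g3⟩ := recode (h := h) (τ := τ) (T₁ \ T) T ρ hI.fine (by rw [hT]; exact hinj)
    (fun I hI' => by
      rw [Finset.mem_sdiff] at hI'
      refine ⟨?_, hI'.2⟩
      have h1 : I ∈ (T₁ : Set Ins) := hI'.1
      rw [hT₁] at h1
      exact h1.1)
    (by
      have h1 := Finset.card_sdiff_add_card_eq_card hTT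
      omega)
  have hsame : ∀ u ∈ SpoS dec QQ ∪ (DA : Set (List Bool)),
      sta h Q dec O₀ P₀ L τ ρ₁ u = sta h Q dec O₀ P₀ L τ ρ u := by
    intro u hu
    refine star_eq (cQ_short hdec hQ (gb_local P₀ L)) fun I i hi hc hτ => g2 I fun hcon => ?_
    rw [Finset.mem_sdiff] at hcon
    refine hcon.2 ?_
    have h1 : I ∈ tch h τ (SpoS dec QQ ∪ (DA : Set (List Bool))) := ⟨hτ, i, hi, hc ▸ hu⟩
    rw [← hT] at h1
    exact h1
  obtain ⟨G, k1, _, k3, k4⟩ := hide2 dec QQ (sta h Q dec O₀ P₀ L τ ρ) P hI.isExt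
  refine ⟨ρ₁, G (sta h Q dec O₀ P₀ L τ ρ₁), ⟨g1, ?_, ?_⟩, g3.mono ?_, ?_, ?_⟩
  · exact fun i m => k3 i m _ fun u hu _ => hsame u (Or.inl hu)
  · intro i m hm
    rw [k1 i m _ fun u hu => sta_low hdec hQ ρ₁ ρ u (by omega), hI.low i m hm]
    exact gb_local P₀ L i m _ _ fun u hu => sta_low hdec hQ ρ ρ₁ u (by omega)
  · rw [← hT₁]
    intro I hI'
    by_cases h1 : I ∈ T
    · exact Or.inl h1
    · exact Or.inr (Finset.mem_coe.2 (Finset.mem_sdiff.2 ⟨hI', h1⟩))
  · exact fun u hu => hsame u (Or.inr hu)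
  · exact fun q hq => k4 q hq _

theorem adaptA (hdec : ∀ q, (dec q).m ≤ q.length) (hQ : ∀ e, Short (h e) (Q e)) (M : Alg)
    (x : List Bool) : ∀ (n : ℕ) (a : List Bool) (QQ DA : Finset (List Bool))
    (ρ : Ins → List Bool) (P : Fam F), Inv h Q dec O₀ P₀ L τ ρ P →
    Set.InjOn ρ (tch h τ (SpoS dec QQ ∪ ↑DA)) → QQ.card + DA.card + n < 2 ^ (τ - 1) →
    ∃ (ρ' : Ins → List Bool) (P' : Fam F) (QQ' DA' : Finset (List Bool)),
      Inv h Q dec O₀ P₀ L τ ρ' P' ∧ Set.InjOn ρ' (tch h τ (SpoS dec QQ' ∪ ↑DA')) ∧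
      QQ ⊆ QQ' ∧ DA ⊆ DA' ∧ QQ'.card + DA'.card ≤ QQ.card + DA.card + n ∧
      (∀ u ∈ DA, sta h Q dec O₀ P₀ L τ ρ' u = sta h Q dec O₀ P₀ L τ ρ u) ∧
      (∀ q ∈ QQ, ora dec P' q = ora dec P q) ∧
      ∀ q ∈ qs M (comb (sta h Q dec O₀ P₀ L τ ρ') (ora dec P')) x n a,
        (∃ v ∈ QQ', q = true :: true :: false :: v) ∨
          (q ∈ DA' ∧ ∀ v, q ≠ true :: true :: false :: v) := by
  classical
  intro n
  induction n with
  | zero =>
    intro a QQ DA ρ P hI hinj _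
    exact ⟨ρ, P, QQ, DA, hI, hinj, subset_rfl, subset_rfl, le_rfl, fun _ _ => rfl,
      fun _ _ => rfl, fun q hq => by simp [qs] at hq⟩
  | succ n ih =>
    intro a QQ DA ρ P hI hinj hcard
    rcases hq : M.D (pairBits x a) with _ | ⟨c, q⟩
    · exact ⟨ρ, P, QQ, DA, hI, hinj, subset_rfl, subset_rfl, Nat.le_add_right _ _,
        fun _ _ => rfl, fun _ _ => rfl, fun q' hq' => by simp [qs, hq] at hq'⟩
    cases c with
    | true =>
      exact ⟨ρ, P, QQ, DA, hI, hinj, subset_rfl, subset_rfl, Nat.le_add_right _ _,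
        fun _ _ => rfl, fun _ _ => rfl, fun q' hq' => by simp [qs, hq] at hq'⟩
    | false =>
      by_cases hex : ∃ v, q = true :: true :: false :: v
      · obtain ⟨v, hv⟩ := hex
        have hc1 : (insert v QQ).card ≤ QQ.card + 1 := Finset.card_insert_le _ _
        obtain ⟨ρ₁, P₁, s1, s2, s3, s4⟩ := step hdec hQ (Finset.subset_insert v QQ)
          (subset_refl DA) (by omega) hI hinj
        obtain ⟨ρ', P', QQ', DA', g1, g2, g3, g4, g5, g6, g7, g8⟩ :=
          ih (a ++ [ora dec P₁ v]) (insert v QQ) DA ρ₁ P₁ s1 s2 (by omega)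
        have hans : comb (sta h Q dec O₀ P₀ L τ ρ') (ora dec P') q = ora dec P₁ v := by
          rw [hv, comb_ext]
          exact g7 v (Finset.mem_insert_self _ _)
        refine ⟨ρ', P', QQ', DA', g1, g2, (Finset.subset_insert v QQ).trans g3, g4, by omega,
          fun u hu => (g6 u hu).trans (s3 u hu),
          fun q' hq' => (g7 q' (Finset.mem_insert_of_mem hq')).trans (s4 q' hq'), ?_⟩
        intro q' hq'
        simp only [qs, hq, List.mem_cons] at hq'
        rcases hq' with rfl | hq'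
        · exact Or.inl ⟨v, g3 (Finset.mem_insert_self _ _), hv⟩
        · rw [hans] at hq'
          exact g8 q' hq'
      · push Not at hex
        have hc1 : (insert q DA).card ≤ DA.card + 1 := Finset.card_insert_le _ _
        obtain ⟨ρ₁, P₁, s1, s2, s3, s4⟩ := step hdec hQ (subset_refl QQ)
          (Finset.subset_insert q DA) (by omega) hI hinj
        obtain ⟨ρ', P', QQ', DA', g1, g2, g3, g4, g5, g6, g7, g8⟩ :=
          ih (a ++ [sta h Q dec O₀ P₀ L τ ρ₁ q]) QQ (insert q DA) ρ₁ P₁ s1 s2 (by omega)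
        have hans : comb (sta h Q dec O₀ P₀ L τ ρ') (ora dec P') q =
            sta h Q dec O₀ P₀ L τ ρ₁ q := by
          rw [comb_other _ _ hex]
          exact g6 q (Finset.mem_insert_self _ _)
        refine ⟨ρ', P', QQ', DA', g1, g2, g3, (Finset.subset_insert q DA).trans g4, by omega,
          fun u hu => (g6 u (Finset.mem_insert_of_mem hu)).trans (s3 u hu),
          fun q' hq' => (g7 q' hq').trans (s4 q' hq'), ?_⟩
        intro q' hq'
        simp only [qs, hq, List.mem_cons] at hq'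
        rcases hq' with rfl | hq'
        · exact Or.inr ⟨g4 (Finset.mem_insert_self _ _), hex⟩
        · rw [hans] at hq'
          exact g8 q' hq'

end

end Pool.Agent.K6.H61.ALH
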